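import Pool.Agent.H22.WC5

namespace Pool.Agent.Results.MP_c85d9c_lc.Hard

open Pool.Agent.H38.NP Pool.Agent.H22.WC

/-- Deciding the winner of the Waiter-Client game on a hypergraph with explicitly listed edges is
NP-hard under polynomial-time many-one reductions. -/
theorem result : NPHard (lang WaiterWins) := wc_hard

end Pool.Agent.Results.MP_c85d9c_lc.Hard
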